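import Pool.Agent.Run7.h401.Kept.TwoCurvesJointLaw
import Pool.Agent.Run7.h268.FN.Jlw

/-!
# The weak Birch and Swinnerton-Dyer conjecture for two families at once: the joint law for the numbers
# with a fixed number of prime factors from an arbitrary dense set

For an integer `D ≥ 1` let `A_D : y² = x³ - 35 D² x - 98 D³`, the quadratic twist by `D` of `X_0(49)`, and
`C_D : y² = x³ - 432 D²`, the curve `x³ + y³ = D`, which is `3`-isogenous to `E_D : y² + D y = x³`. The
class consists of the squarefree `D`, prime to `3`, not `±1` modulo `9`, all of whose prime factors are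
`1` modulo `4`, exactly one of them `2` modulo `3`. `D` is good for `A` if `A_D(ℚ)` is finite and
`Ш(A_D/ℚ)[2] = 0`, good for `C` if `E_D(ℚ)` is finite and `Ш(E_D/ℚ)[3^∞] = 0`; then `L(A_D, 1) ≠ 0`
(`L(C_D, 1) ≠ 0`), and the weak conjecture holds for `A_D` (for `C_D`), with both sides false. By the team's
theorem `MP_8b7eba_nt/TwoCurvesJointLaw` the two conditions are independent among all `D` of the class,
with the probabilities `0.4194...` and `0.5601...`; almost all of these have many prime factors.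

Here the number of the prime factors is fixed, and they are taken from a set `S` of primes which
contains a positive proportion of each of the residue classes modulo `252` which are prime to `63` and
`1` modulo `4`; for instance a residue class modulo a number prime to `42`. Let `k` be the number of the
prime factors which split in `ℚ(√-7)`, and `l ≥ 1` the number of the inert ones, `k + l ≥ 2`. The number of
these `D ≤ X` has the order of magnitude `X (log log X)^(k+l-1) / log X`, and the two conditions are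
independent, with the probabilities
* `P k = ∏_{i < (k+1)/2} (1 - 2^{-(2i+1)})` for `A`: the proportion of the invertible matrices among the
  symmetric `k` times `k` matrices over `𝔽₂`;
* `C n = ∏_{i ≤ n} (1 - 3^{-i})`, `n = k + l - 1`, for `C`: the proportion of the invertible matrices among
  all `n` times `n` matrices over `𝔽₃`.

The proof. The joint equidistribution of the quadratic and the cubic symbols of tuples of primes in
boxes is from helper401's files (`Run7/h401/PJ`), the frame for a fixed number of primes from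
the starting library `V11291/FK`; here they are combined, with exact probabilities for a fixed number of
primes and for arbitrary subsets of the primes (`Run7/h268/FN`).
-/

set_option autoImplicit false

open Filter Topology

namespace Pool.Agent.Results.MP_8b7eba_nt.FixedNumberTwoCurves

open Pool.Agent.Results.MP_8b7eba_nt.TwoCurvesJointLaw (Class GoodA GoodC WeakA WeakC prob)

/-- the prime `p` splits in `ℚ(√-7)` -/
def Splits (p : ℕ) : Prop := p % 7 = 1 ∨ p % 7 = 2 ∨ p % 7 = 4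

/-- the number of the prime factors of `D` with the property `P` -/
noncomputable def number (P : ℕ → Prop) (D : ℕ) : ℕ := Nat.card {p : ℕ // p.Prime ∧ p ∣ D ∧ P p}

/-- `D` is in the class, all its prime factors are in `S`, `k` of them split in `ℚ(√-7)` and `l` are
inert -/
def Family (S : Set ℕ) (k l D : ℕ) : Prop :=
  Class D ∧ (∀ p : ℕ, p.Prime → p ∣ D → p ∈ S) ∧ number Splits D = k ∧
    number (fun p => ¬ Splits p) D = l

/-- at least a positive proportion of the primes up to `Y` is in `S` and congruent to `c` modulo `252`,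
for all large `Y` -/
def Dense (S : Set ℕ) (c : ℕ) : Prop := ∃ (δ : ℝ) (Y₀ : ℕ), 0 < δ ∧ ∀ Y : ℕ, Y₀ ≤ Y →
  δ * (Y / Real.log Y) ≤ (Nat.card {p : ℕ // p ≤ Y ∧ p.Prime ∧ p ∈ S ∧ p % 252 = c % 252} : ℝ)

/-- `S` contains a positive proportion of each residue class modulo `252` which is prime to `63` and `1`
modulo `4` -/
def Rich (S : Set ℕ) : Prop := ∀ c : ℕ, c % 4 = 1 → Nat.Coprime c 63 → Dense S c

/-- the number of the `D` with `1 ≤ D ≤ X` and `Q D` -/
noncomputable def count (Q : ℕ → Prop) (X : ℕ) : ℕ := Nat.card {D : ℕ // 1 ≤ D ∧ D ≤ X ∧ Q D}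

/-- `P n = ∏_{i < (n+1)/2} (1 - 2^{-(2i+1)})` -/
noncomputable def P (n : ℕ) : ℝ :=
  ∏ i ∈ Finset.range ((n + 1) / 2), (1 - (1 / 2 : ℝ) ^ (2 * i + 1))

/-- `C n = ∏_{i < n} (1 - 3^{-(i+1)})` -/
noncomputable def C (n : ℕ) : ℝ := ∏ i ∈ Finset.range n, (1 - (1 / 3 : ℝ) ^ (i + 1))

section proof

open Run7.h268.FN Run7.h268.FN.J
open Pool.Agent.V11291.FK (PG QG Dn)
open Pool.Agent.Y698.SG (n4)
open Pool.Agent.Run7.h401.PJ (ClsD clsD_iff)

/-- the marked primes -/
def mr (p : ℕ) : Prop := Pool.Agent.R413.SQ.mk p = 1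

theorem mr_iff (p : ℕ) : mr p ↔ Splits p := by
  unfold mr Pool.Agent.R413.SQ.mk Splits
  by_cases h : p % 7 = 1 ∨ p % 7 = 2 ∨ p % 7 = 4
  · rw [if_pos h]
    exact ⟨fun _ => h, fun _ => rfl⟩
  · rw [if_neg h]
    exact ⟨fun h1 => absurd h1 zero_ne_one, fun h1 => absurd h1 h⟩

open Classical in
/-- the kinds of the primes -/
noncomputable def c1 (p : ℕ) : ℕ := if Splits p then 1 else 0

theorem c1_iff (p : ℕ) : (c1 p = 1 ↔ Splits p) ∧ (c1 p = 0 ↔ ¬ Splits p) := by
  unfold c1
  by_cases h : Splits p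
  · simp [h]
  · simp [h]

theorem adm1 (S : Set ℕ) : Adm (AS S) c1 mr (fun r => r = 1) where
  prime _ h := h.1
  odd p h := by
    rintro rfl
    exact absurd h.2.1 (by norm_num)
  four _ h _ := h.2.1
  mark p _ := (mr_iff p).trans (c1_iff p).1.symm

theorem gd_eq (Q : Finset ℕ) : Pool.Agent.R413.SQ.Gd n4 Q ↔ GdM mr n4 Q := by
  have e : ∀ x : ℕ → ZMod 2, Pool.Agent.R413.SQ.cu x = cuM mr x := by
    intro x
    funext q
    unfold Pool.Agent.R413.SQ.cu cuM mr
    by_cases h : Pool.Agent.R413.SQ.mk q = 1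
    · rw [if_pos h, if_pos h]
    · rw [if_neg h, if_neg h]
  unfold Pool.Agent.R413.SQ.Gd GdM Pool.Agent.R413.SQ.Sol SolM
  simp only [e]
  exact Iff.rfl

theorem fam_iff {S : Set ℕ} {k l D : ℕ} :
    Family S k l D ↔ FamJ (AS S) c1 (ty k l 1 0) D := by
  unfold FamJ
  rw [famN_iff one_ne_zero]
  unfold Family number
  rw [Pool.Agent.Results.MP_8b7eba_nt.TwoCurvesJointLaw.class_iff]
  simp only [(c1_iff _).1, (c1_iff _).2]
  unfold W9
  constructor
  · rintro ⟨h1, h2, h3, h4⟩
    obtain ⟨⟨a1, a2, a3, a4⟩, a5⟩ := (clsD_iff h1.1).1 h1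
    refine ⟨⟨h1.1, fun p hp => ⟨(a1 p hp).1, a5 p hp, ?_⟩, fun p _ => em _, h3, h4⟩, ⟨a3, a4⟩, a2⟩
    exact h2 p (Nat.prime_of_mem_primeFactors hp) (Nat.dvd_of_mem_primeFactors hp)
  · rintro ⟨⟨h1, h2, -, h3, h4⟩, ⟨a3, a4⟩, a2⟩
    refine ⟨(clsD_iff h1).2 ⟨⟨fun p hp => ⟨(h2 p hp).1, ?_⟩, a2, a3, a4⟩, fun p hp => (h2 p hp).2.1⟩,
      fun p hp hd => (h2 p (Nat.mem_primeFactors.2 ⟨hp, hd, h1.ne_zero⟩)).2.2, h3, h4⟩
    rintro rfl
    exact absurd (h2 3 hp).2.1 (by norm_num)

theorem cls_of {S : Set ℕ} {k l D : ℕ} (h : Family S k l D) : ClsD D :=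
  (Pool.Agent.Results.MP_8b7eba_nt.TwoCurvesJointLaw.class_iff D).1 h.1

/-- the residues modulo `9` -/
def rho (k l : ℕ) : Fin k ⊕ Fin l → ℕ := Sum.elim (fun _ => 1) fun i => if (i : ℕ) = 0 then 2 else 1

theorem wr_rho (k : ℕ) {l : ℕ} (hl : 1 ≤ l) : Wr9 (rho k l) := by
  obtain ⟨l', rfl⟩ : ∃ l', l = l' + 1 := ⟨l - 1, by omega⟩
  have h1 : ∏ i, rho k (l' + 1) i = 2 := by
    unfold rho
    rw [Fintype.prod_sum_type]
    simp only [Sum.elim_inl, Sum.elim_inr, Finset.prod_const_one, one_mul]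
    rw [Fin.prod_univ_succ]
    simp
  have h2 : (Finset.univ.filter fun i => rho k (l' + 1) i % 3 = 2) = {Sum.inr 0} := by
    ext i
    rw [Finset.mem_filter, Finset.mem_singleton]
    rcases i with i | i
    · simp [rho]
    · by_cases hi : (i : ℕ) = 0
      · have : i = 0 := Fin.ext hi
        subst this
        simp [rho]
      · have : i ≠ 0 := fun h => hi (by rw [h]; rfl)
        simp [rho, this]
  refine ⟨⟨?_, ?_⟩, ?_⟩
  · rw [h1]
    norm_num
  · rw [h1]
    norm_num
  · convert Finset.card_singleton (Sum.inr 0 : Fin k ⊕ Fin (l' + 1)) using 2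

theorem dn_rho {S : Set ℕ} (hS : Rich S) (k l : ℕ) (i : Fin k ⊕ Fin l) :
    Dn (PR9 (AS S) c1 (ty k l 1 0) (rho k l) i) := by
  have key : ∀ (c : ℕ), c % 4 = 1 → Nat.Coprime c 63 → c < 252 → ∀ R : ℕ → Prop,
      (∀ p, AS S p → p % 252 = c → R p) → Dn R := by
    intro c h4 h63 hc R hR
    obtain ⟨δ, Y₀, hδ, h⟩ := hS c h4 h63
    refine dn_of hδ h fun p hp => hR p ⟨hp.1, ?_, hp.2.1⟩ ?_
    · have := hp.2.2
      omega
    · have := hp.2.2
      omega
  rcases i with i | i
  · refine key 1 (by norm_num) (by norm_num) (by norm_num) _ fun p hp h => ⟨⟨hp, ?_⟩, ?_⟩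
    · exact (c1_iff p).1.2 (Or.inl (by omega))
    · show p % 9 = 1
      omega
  · by_cases hi : (i : ℕ) = 0
    · refine key 101 (by norm_num) (by norm_num) (by norm_num) _ fun p hp h => ⟨⟨hp, ?_⟩, ?_⟩
      · refine (c1_iff p).2.2 ?_
        unfold Splits
        omega
      · show p % 9 = if (i : ℕ) = 0 then 2 else 1
        rw [if_pos hi]
        omega
    · refine key 73 (by norm_num) (by norm_num) (by norm_num) _ fun p hp h => ⟨⟨hp, ?_⟩, ?_⟩
      · refine (c1_iff p).2.2 ?_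
        unfold Splits
        omega
      · show p % 9 = if (i : ℕ) = 0 then 2 else 1
        rw [if_neg hi]
        omega

theorem prob1 (S : Set ℕ) (k : ℕ) {l : ℕ} (hl : 1 ≤ l) :
    @Prob (Fin k ⊕ Fin l) _ (ordS k l) (AS S) c1 (fun r => r = 1) n4 (ty k l 1 0) (P k) := by
  let _ : LinearOrder (Fin k ⊕ Fin l) := ordS k l
  intro p _
  have h1 := card_JM (fun r => r = 1) k l 1 0 rfl zero_ne_one
  have h2 := PrT_unmarked Pool.Agent.Y839.CQ.t_SYM (JM (fun r => r = 1) (ty k l 1 0))
    ⟨Sum.inr ⟨0, by omega⟩, fun h => by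
      unfold JM at h
      simp only [Finset.mem_filter] at h
      exact absurd h.2 zero_ne_one⟩ (fun i => n4 (p i))
  rw [h1] at h2
  exact h2

theorem count_eq {S : Set ℕ} {k l : ℕ} (Q : ℕ → Prop) (X : ℕ) :
    count (fun D => Family S k l D ∧ Q D) X = nn (FamJ (AS S) c1 (ty k l 1 0)) Q X := by
  unfold count nn
  rw [card_Icc]
  exact fcc _ fun D _ => and_congr_left fun _ => fam_iff

theorem count_eq' {S : Set ℕ} {k l : ℕ} (X : ℕ) :
    count (Family S k l) X = nn (FamJ (AS S) c1 (ty k l 1 0)) (fun _ => True) X := by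
  rw [← count_eq]
  unfold count
  simp only [and_true]

theorem law {S : Set ℕ} (hS : Rich S) {k l : ℕ} (hl : 1 ≤ l) (hkl : 2 ≤ k + l) (s t : Bool) :
    Tendsto (fun X : ℕ =>
      (count (fun D => Family S k l D ∧ (GoodA D ↔ s = true) ∧ (GoodC D ↔ t = true)) X : ℝ) /
        (count (Family S k l) X : ℝ)) atTop (𝓝 (prob s (P k) * prob t (C (k + l - 1)))) := by
  let _ : LinearOrder (Fin k ⊕ Fin l) := ordS k l
  have h := num_law9 (adm1 S) (fun p hp => hp.2.1) (by rw [card_S]; exact hkl) (sp_nonneg k)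
    (sp_le_one k) (prob1 S k hl) (wr_rho k hl) (dn_rho hS k l) (P := GoodA) (Q := GoodC)
    (fun D hD => by
      rw [← gd_eq]
      exact Pool.Agent.Results.MP_8b7eba_nt.TwoCurvesJointLaw.goodA_iff (cls_of (fam_iff.2 hD)))
    (fun D hD => Pool.Agent.Results.MP_8b7eba_nt.TwoCurvesJointLaw.goodC_iff
      (cls_of (fam_iff.2 hD))) s t
  rw [card_S] at h
  refine h.congr fun X => ?_
  rw [count_eq', count_eq fun D => (GoodA D ↔ s = true) ∧ (GoodC D ↔ t = true)]

theorem size {S : Set ℕ} (hS : Rich S) {k l : ℕ} (hl : 1 ≤ l) :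
    ∃ (c d : ℝ) (X₀ : ℕ), 0 < c ∧ 0 < d ∧ ∀ X : ℕ, X₀ ≤ X →
      c * (X * Real.log (Real.log X) ^ (k + l - 1) / Real.log X) ≤ (count (Family S k l) X : ℝ) ∧
      (count (Family S k l) X : ℝ) ≤
        d * (X * Real.log (Real.log X) ^ (k + l - 1) / Real.log X) := by
  let _ : LinearOrder (Fin k ⊕ Fin l) := ordS k l
  have h := num_size9 (adm1 S) (Sum.inr ⟨0, by omega⟩ : Fin k ⊕ Fin l) (wr_rho k hl) (dn_rho hS k l)
  rw [card_S] at h
  obtain ⟨c, d, X₀, hc, hd, h⟩ := h
  refine ⟨c, d, X₀, hc, hd, fun X hX => ?_⟩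
  rw [count_eq']
  exact h X hX

theorem rich_class {q c : ℕ} (hq : Nat.Coprime q 42) (hc : Nat.Coprime c q) :
    Rich {p | p % q = c % q} := by
  have hq0 : 1 ≤ q := by
    rcases Nat.eq_zero_or_pos q with h | h
    · subst h
      exact absurd hq (by decide)
    · exact h
  have hq252 : Nat.Coprime q 252 := by
    have h2 : Nat.Coprime q (42 * 42) := Nat.Coprime.mul_right hq hq
    exact Nat.Coprime.coprime_dvd_right (by norm_num) h2
  intro e he4 he63
  have h4 : Nat.Coprime e 4 := by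
    have h2 : Nat.Coprime e 2 := Nat.coprime_two_right.2 (Nat.odd_iff.2 (by omega))
    exact Nat.Coprime.pow_right 2 h2
  have he : Nat.Coprime e 252 := Nat.Coprime.mul_right h4 he63
  have he' : Nat.Coprime (e % 252) 252 := by
    unfold Nat.Coprime at he ⊢
    rw [← Nat.gcd_rec, Nat.gcd_comm]
    exact he
  have h := Run7.h268.FN.dn_class (q := q) (c := c) (m := 252) (r := e % 252) (by norm_num) hq252 hq0
    hc he' (Nat.mod_lt _ (by norm_num))
  have h2 : Pool.Agent.V11291.FK.Dn fun p =>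
      p.Prime ∧ p ∈ {p | p % q = c % q} ∧ p % 252 = e % 252 := by
    obtain ⟨δ, Y₀, hδ, h⟩ := h
    refine ⟨δ, Y₀, hδ, fun Y hY => (h Y hY).trans ?_⟩
    refine Nat.cast_le.2 (Finset.card_le_card fun p hp => ?_)
    simp only [Finset.mem_filter] at hp ⊢
    exact hp
  exact Run7.h268.FN.card_of_dn h2

theorem count_mono {Q R : ℕ → Prop} (h : ∀ D, Q D → R D) (X : ℕ) : count Q X ≤ count R X := by
  unfold count
  rw [card_Icc, card_Icc]
  exact Finset.card_le_card fun D hD => by
    simp only [Finset.mem_filter] at hD ⊢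
    exact ⟨hD.1, h D hD.2⟩

theorem count_split (F Q : ℕ → Prop) (X : ℕ) :
    (count (fun D => F D ∧ Q D) X : ℝ) + (count (fun D => F D ∧ ¬ Q D) X : ℝ) = (count F X : ℝ) := by
  classical
  have e : ∀ R : ℕ → Prop, count (fun D => F D ∧ R D) X =
      (((Finset.Icc 1 X).filter F).filter R).card := by
    intro R
    unfold count
    rw [card_Icc, Finset.filter_filter]
    exact fcc _ fun D _ => Iff.rfl
  have e2 : count F X = ((Finset.Icc 1 X).filter F).card := by
    unfold count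
    rw [card_Icc]
  have e3 := Finset.card_filter_add_card_filter_not (s := (Finset.Icc 1 X).filter F) Q
  rw [← e Q, ← e2] at e3
  have e5 := (e fun D => ¬ Q D).trans (fcc (dQ := fun D => instDecidableNot) _
    fun D _ => Iff.rfl)
  rw [← e5] at e3
  exact_mod_cast e3

theorem ev_low {F Q : ℕ → Prop} {a : ℝ}
    (h : Tendsto (fun X : ℕ => (count Q X : ℝ) / (count F X : ℝ)) atTop (𝓝 a)) {ε : ℝ} (hε : 0 < ε) :
    ∀ᶠ X : ℕ in atTop, (a - ε) * (count F X : ℝ) ≤ (count Q X : ℝ) := by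
  filter_upwards [h.eventually (lt_mem_nhds (show a - ε < a by linarith))] with X hX
  rcases (Nat.cast_nonneg (α := ℝ) (count F X)).eq_or_lt with h0 | h0
  · rw [← h0, mul_zero]
    positivity
  · exact ((lt_div_iff₀ h0).1 hX).le

theorem ev_up {F Q : ℕ → Prop} {a : ℝ} (hQ : ∀ X, count Q X ≤ count F X)
    (h : Tendsto (fun X : ℕ => (count Q X : ℝ) / (count F X : ℝ)) atTop (𝓝 a)) {ε : ℝ} (hε : 0 < ε) :
    ∀ᶠ X : ℕ in atTop, (count Q X : ℝ) ≤ (a + ε) * (count F X : ℝ) := by
  filter_upwards [h.eventually (gt_mem_nhds (show a < a + ε by linarith))] with X hX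
  rcases (Nat.cast_nonneg (α := ℝ) (count F X)).eq_or_lt with h0 | h0
  · rw [← h0, mul_zero]
    have h1 : (count Q X : ℝ) ≤ (count F X : ℝ) := by exact_mod_cast hQ X
    rw [← h0] at h1
    exact h1
  · exact ((div_lt_iff₀ h0).1 hX).le

theorem weak_both {S : Set ℕ} (hS : Rich S) {k l : ℕ} (hl : 1 ≤ l) (hkl : 2 ≤ k + l) {ε : ℝ}
    (hε : 0 < ε) : ∀ᶠ X : ℕ in atTop, (P k * C (k + l - 1) - ε) * (count (Family S k l) X : ℝ) ≤
      (count (fun D => Family S k l D ∧ WeakA D ∧ WeakC D) X : ℝ) := by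
  have h := law hS hl hkl true true
  unfold prob at h
  simp only [if_true] at h
  filter_upwards [ev_low h hε] with X hX
  refine hX.trans ?_
  have h2 := count_mono (Q := fun D => Family S k l D ∧ (GoodA D ↔ True) ∧ (GoodC D ↔ True))
    (R := fun D => Family S k l D ∧ WeakA D ∧ WeakC D) (fun D hD => ⟨hD.1,
      Pool.Agent.Results.MP_8b7eba_nt.TwoCurvesJointLaw.weakA (cls_of hD.1) (hD.2.1.2 trivial),
      Pool.Agent.Results.MP_8b7eba_nt.TwoCurvesJointLaw.weakC (cls_of hD.1) (hD.2.2.2 trivial)⟩) X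
  exact_mod_cast h2

theorem weak_one {S : Set ℕ} (hS : Rich S) {k l : ℕ} (hl : 1 ≤ l) (hkl : 2 ≤ k + l) {ε : ℝ}
    (hε : 0 < ε) : ∀ᶠ X : ℕ in atTop,
      (1 - (1 - P k) * (1 - C (k + l - 1)) - ε) * (count (Family S k l) X : ℝ) ≤
      (count (fun D => Family S k l D ∧ (WeakA D ∨ WeakC D)) X : ℝ) := by
  have h := law hS hl hkl false false
  unfold prob at h
  simp only [Bool.false_eq_true, if_false] at h
  have hle : ∀ X, count (fun D => Family S k l D ∧ (GoodA D ↔ False) ∧ (GoodC D ↔ False)) X ≤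
      count (Family S k l) X := count_mono fun D hD => hD.1
  filter_upwards [ev_up hle h hε] with X hX
  have h1 := count_split (Family S k l) (fun D => WeakA D ∨ WeakC D) X
  have h2 := count_mono (Q := fun D => Family S k l D ∧ ¬ (WeakA D ∨ WeakC D))
    (R := fun D => Family S k l D ∧ (GoodA D ↔ False) ∧ (GoodC D ↔ False)) (fun D hD => by
      refine ⟨hD.1, ⟨fun h => hD.2 (Or.inl ?_), False.elim⟩, ⟨fun h => hD.2 (Or.inr ?_), False.elim⟩⟩
      · exact Pool.Agent.Results.MP_8b7eba_nt.TwoCurvesJointLaw.weakA (cls_of hD.1) h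
      · exact Pool.Agent.Results.MP_8b7eba_nt.TwoCurvesJointLaw.weakC (cls_of hD.1) h) X
  have h3 : (count (fun D => Family S k l D ∧ ¬ (WeakA D ∨ WeakC D)) X : ℝ) ≤
      (count (fun D => Family S k l D ∧ (GoodA D ↔ False) ∧ (GoodC D ↔ False)) X : ℝ) := by
    exact_mod_cast h2
  linarith

end proof

theorem card_symm_matrices (n : ℕ) :
    (Nat.card {M : Matrix (Fin n) (Fin n) (ZMod 2) // M.IsSymm ∧ M.det ≠ 0} : ℝ) =
      P n * Nat.card {M : Matrix (Fin n) (Fin n) (ZMod 2) // M.IsSymm} := by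
  rw [Pool.Agent.Y839.CQ.t_SYM n, Pool.Agent.Y219.CQ.card_symm]
  push_cast
  exact mul_comm _ _

/-- **The weak conjecture for the twists of two curves by numbers with a fixed number of prime factors:
the joint law.** -/
theorem result :
    -- the numbers `P n`
    (∀ n : ℕ, (Nat.card {M : Matrix (Fin n) (Fin n) (ZMod 2) // M.IsSymm ∧ M.det ≠ 0} : ℝ) =
      P n * Nat.card {M : Matrix (Fin n) (Fin n) (ZMod 2) // M.IsSymm}) ∧
    -- a single number
    (∀ D : ℕ, Class D → (GoodA D → WeakA D) ∧ (GoodC D → WeakC D)) ∧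
    -- the joint law
    (∀ S : Set ℕ, Rich S → ∀ k l : ℕ, 1 ≤ l → 2 ≤ k + l →
      (∃ (c d : ℝ) (X₀ : ℕ), 0 < c ∧ 0 < d ∧ ∀ X : ℕ, X₀ ≤ X →
        c * (X * Real.log (Real.log X) ^ (k + l - 1) / Real.log X) ≤
          (count (Family S k l) X : ℝ) ∧
        (count (Family S k l) X : ℝ) ≤
          d * (X * Real.log (Real.log X) ^ (k + l - 1) / Real.log X)) ∧
      (∀ s t : Bool, Tendsto (fun X : ℕ =>
        (count (fun D => Family S k l D ∧ (GoodA D ↔ s = true) ∧ (GoodC D ↔ t = true)) X : ℝ) /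
          (count (Family S k l) X : ℝ)) atTop (𝓝 (prob s (P k) * prob t (C (k + l - 1))))) ∧
      ∀ ε : ℝ, 0 < ε → ∀ᶠ X : ℕ in atTop,
        (P k * C (k + l - 1) - ε) * (count (Family S k l) X : ℝ) ≤
          (count (fun D => Family S k l D ∧ WeakA D ∧ WeakC D) X : ℝ) ∧
        (1 - (1 - P k) * (1 - C (k + l - 1)) - ε) * (count (Family S k l) X : ℝ) ≤
          (count (fun D => Family S k l D ∧ (WeakA D ∨ WeakC D)) X : ℝ)) ∧
    -- the residue classes modulo numbers prime to `42` are allowed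
    (∀ q c : ℕ, Nat.Coprime q 42 → Nat.Coprime c q → Rich {p | p % q = c % q}) := by
  refine ⟨card_symm_matrices, fun D hD => ?_, fun S hS k l hl hkl => ⟨size hS hl, law hS hl hkl,
    fun ε hε => (weak_both hS hl hkl hε).and (weak_one hS hl hkl hε)⟩, fun q c => rich_class⟩
  have h := (Pool.Agent.Results.MP_8b7eba_nt.TwoCurvesJointLaw.class_iff D).1 hD
  exact ⟨Pool.Agent.Results.MP_8b7eba_nt.TwoCurvesJointLaw.weakA h,
    Pool.Agent.Results.MP_8b7eba_nt.TwoCurvesJointLaw.weakC h⟩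

end Pool.Agent.Results.MP_8b7eba_nt.FixedNumberTwoCurves
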