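import Pool.Agent.Run7.h555.P15.Gs
import Pool.Agent.Run7.h555.P15.Th
import Pool.Agent.Run7.h209.P15.Per6
import Pool.Agent.Run7.h424.DC.Fin
import Pool.Agent.Run7.h424.M6.Fin
import Pool.Agent.Run7.h238.G15.Dens
import Pool.Agent.Run7.h238.G15.Curve
import Pool.Agent.Run7.h843.G3
import Pool.Agent.Run7.h238.J.Mix

/-!
# The weak Birch and Swinnerton-Dyer conjecture for the quadratic twists of `X_0(15)`: exact densities,
# independence, and all twists of a given twist

Let `E_n` be the quadratic twist by `-n` of the modular curve `X_0(15)`, an elliptic curve over `ℚ`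
without complex multiplication (`E_n` is isomorphic to `y² = x (x + 9 n) (x + 25 n)`). The class
consists of the squarefree `n` congruent to `23` or `47` modulo `60`; the multipliers are the
squarefree `a` congruent to `1` or `49` modulo `60`, and `sqf a n` is the squarefree part of `a n`,
again in the class.

* For every `n` of the class the complete Euler product of `E_n` (with the factors at all bad primes) is
  equal to an entire function `L` for `Re s > 3/2`, and `4 L(1) = (2^ω y)² Ω` with an integer `y`,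
  `ω` the number of the prime divisors of `n`, `Ω` the real period; and `y` is odd if and only if
  `E_n(ℚ)` is finite and `Ш(E_n/ℚ)[2^∞] = 0`. So `L(1) = 0` implies that `E_n(ℚ)` is infinite or
  `Ш(E_n/ℚ)[2^∞]` is not zero.
* `E_n(ℚ)` is finite and `Ш(E_n/ℚ)[2^∞] = 0` if and only if the class group of `ℚ(√-n)` has no
  element of order four, in the elementary form `Criterion n`. Then the weak conjecture holds: `L(1) = 0`
  if and only if `E_n(ℚ)` is infinite (both are false).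
* For every finite set `S` of multipliers and every subset `T` of `S`, exactly the proportion
  `η^#T (1 - η)^(#S - #T)` of the class has this property for the curves `E_(sqf a n)` with `a ∈ T` and
  for no other `a ∈ S`, where `η = ∏_{i ≥ 1} (1 - 2^{-i}) = 0.2887...`; in particular the weak
  conjecture holds for all the twists by `- a n`, `a ∈ S`, at once for at least the proportion
  `0.2887^#S` of the class.

The theorem is joint work of helper89, helper135, helper209, helper238, helper289, helper424,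
helper483, helper555, helper691, helper741, helper843 and helper916: the Gross sum over the vectors of a
ternary lattice, the modular parametrization and the `L`-function (project P15), the descent
(`Run7/h424/DC`), the density of the criterion (`N916/GB`) and its joint law for finitely many
multipliers (project JL).
-/

set_option autoImplicit false

open Filter Topology
open scoped Classical

namespace Pool.Agent.Results.MP_8b7eba_nt.TwistsX15WeakForm

/-- the minimal Weierstrass equation of the quadratic twist by `D ≡ 1 mod 4` of `X_0(15)` -/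
def W (D : ℤ) : WeierstrassCurve ℤ :=
  ⟨1, (5 * D - 1) / 4, 1, -((19 * D ^ 2 + 1) / 2), -((39 * D ^ 3 + 1) / 4)⟩

/-- the elliptic curve `E_n` over `ℚ`, the twist by `-n` -/
def E (n : ℕ) : WeierstrassCurve ℚ := (W (-(n : ℤ))).map (Int.castRingHom ℚ)

/-- the class of the numbers `n` -/
def Class (n : ℕ) : Prop := Squarefree n ∧ (n % 60 = 23 ∨ n % 60 = 47)

/-- the multipliers -/
def Mult (a : ℕ) : Prop := Squarefree a ∧ (a % 60 = 1 ∨ a % 60 = 49)

/-- the squarefree part of the product of two squarefree numbers -/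
def sqf (a n : ℕ) : ℕ := a * n / Nat.gcd a n ^ 2

/-- `a_p = p + 1 - #E_n(𝔽_p)`, for the reduction modulo `p` of the minimal equation -/
noncomputable def a (n p : ℕ) : ℤ :=
  p - Nat.card {P : ZMod p × ZMod p //
    ((W (-(n : ℤ))).map (Int.castRingHom (ZMod p))).toAffine.Equation P.1 P.2}

/-- the Euler factor of `E_n` at `p` (the bad primes are the divisors of `15 n`) -/
noncomputable def factor (n : ℕ) (s : ℂ) (p : ℕ) : ℂ :=
  (1 - (a n p : ℂ) * (p : ℂ) ^ (-s) + if p ∣ 15 * n then 0 else (p : ℂ) ^ (1 - 2 * s))⁻¹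

/-- `f` is entire and equal to the Euler product of `E_n` over all primes for `Re s > 3 / 2` -/
def IsL (n : ℕ) (f : ℂ → ℂ) : Prop :=
  Differentiable ℂ f ∧ ∀ s : ℂ, (3 : ℝ) / 2 < s.re →
    HasProd (fun p : ℕ => if p.Prime then factor n s p else 1) (f s)

/-- `4 x³ + b₂ x² + 2 b₄ x + b₆ = (2 y + a₁ x + a₃)²` -/
def cubic (V : WeierstrassCurve ℤ) (x : ℝ) : ℝ := 4 * x ^ 3 + V.b₂ * x ^ 2 + 2 * V.b₄ * x + V.b₆

/-- the real period of `E_n` -/
noncomputable def Omega (n : ℕ) : ℝ :=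
  2 * ∫ x in {x : ℝ | 0 < cubic (W (-(n : ℤ))) x}, 1 / √(cubic (W (-(n : ℤ))) x)

/-- the weak conjecture for `E_n`: the `L`-function exists, and it vanishes at `1` if and only if
`E_n(ℚ)` is infinite -/
def WeakBSD (n : ℕ) : Prop :=
  (E n).IsElliptic ∧ (∃ f : ℂ → ℂ, IsL n f) ∧
    ∀ f : ℂ → ℂ, IsL n f → (f 1 = 0 ↔ Infinite (E n).toAffine.Point)

/-- `E_n(ℚ)` is finite and `Ш(E_n/ℚ)[2^∞] = 0` -/
def TrivialTwo (n : ℕ) : Prop :=
  Finite (E n).toAffine.Point ∧
    ∀ (k : ℕ) (x : Pool.Agent.TH841.NF.D.Sha (E n)), 2 ^ k • x = 0 → x = 0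

/-- the class group of `ℚ(√-n)` has no element of order four -/
def Criterion (n : ℕ) : Prop := ∀ b c : ℕ, b * c = n →
  (∀ p ∈ c.primeFactors, jacobiSym b p = 1) → (∀ p ∈ b.primeFactors, jacobiSym c p = 1) →
  b = 1 ∨ c = 1

/-- the number of the `n ≤ T` in the class with the property `Q` -/
noncomputable def num (Q : ℕ → Prop) (T : ℕ) : ℕ := Nat.card {n : ℕ // n ≤ T ∧ Class n ∧ Q n}

/-- the constant `η = 0.2887...` -/
noncomputable def eta : ℝ := ∏' i : ℕ, (1 - (1 / 2 : ℝ) ^ (i + 1))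

section proof

open _root_.Run7.h555.P15 (WT CI EI EJ)
open Pool.Agent.N969.P15 (Qc)

theorem E_eq (n : ℕ) : E n = EI n := rfl

theorem two_iff {n : ℕ} (hn : Class n) : TrivialTwo n ↔ Criterion n := by
  have h4 : n % 4 = 3 := by
    rcases hn.2 with h | h <;> omega
  have h1 := _root_.Run7.h424.M6.s_iso n h4
  have h2 := _root_.Run7.h424.DC.iffF hn.1 hn.2 (W := EJ n) (by
    unfold EJ
    push_cast
    rfl)
  have h3 : Qc n ↔ Criterion n := Iff.rfl
  rw [← h3, ← h2]
  constructor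
  · rintro ⟨a1, a2⟩
    exact ⟨h1.1.1 a1, fun k => (h1.2 (2 ^ k)).1 (a2 k)⟩
  · rintro ⟨a1, a2⟩
    exact ⟨h1.1.2 a1, fun k => (h1.2 (2 ^ k)).2 (a2 k)⟩

theorem uniq {n : ℕ} {f g : ℂ → ℂ} (hf : IsL n f) (hg : IsL n g) : f = g := by
  have h : ∀ s : ℂ, (3 : ℝ) / 2 < s.re → f s = g s := fun s hs =>
    (hf.2 s hs).unique (hg.2 s hs)
  have hfa : AnalyticOnNhd ℂ f Set.univ := fun z _ => hf.1.analyticAt z
  have hga : AnalyticOnNhd ℂ g Set.univ := fun z _ => hg.1.analyticAt z
  refine hfa.eq_of_eventuallyEq hga (z₀ := 2) ?_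
  have ho : IsOpen {s : ℂ | (3 : ℝ) / 2 < s.re} := isOpen_lt continuous_const Complex.continuous_re
  filter_upwards [ho.mem_nhds (show (3 : ℝ) / 2 < (2 : ℂ).re by norm_num)] with s hs
  exact h s hs

/-- one curve -/
theorem one {n : ℕ} (hn : Class n) :
    ∃ F : ℂ → ℂ, Differentiable ℂ F ∧
      (∀ s : ℂ, (3 : ℝ) / 2 < s.re →
        HasProd (fun p : ℕ => if p.Prime then factor n s p else 1) (F s)) ∧
      0 < Omega n ∧ ∃ y : ℤ, (Odd y ↔ Criterion n) ∧
        F 1 = (((2 ^ n.primeFactors.card * y / 2 : ℚ) ^ 2 : ℚ) : ℂ) * (Omega n : ℂ) := by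
  have h4 : n % 4 = 3 := by rcases hn.2 with h | h <;> omega
  obtain ⟨L, Op, Om, hOp, hOm, g2, g3, hL⟩ := _root_.Run7.h209.P15.m_lat
  obtain ⟨F, hF, hprod, y', hcc, hodd, hval⟩ := _root_.Run7.h555.P15.center_ex hOm g2 g3 hL (n := n) hn
  obtain ⟨y, rfl⟩ : ∃ y : ℤ, y' = 3 * y := by
    have h3 : (3 : ℤ) ∣ 2 ^ n.primeFactors.card * y' := by
      rw [← hcc]
      exact _root_.Run7.h555.P15.three_dvd_cc (by have := hn.2; omega)
    rcases (Int.prime_three.dvd_mul).1 h3 with h4 | h4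
    · exact absurd (Int.prime_three.dvd_of_dvd_pow h4) (by decide)
    · exact h4
  have hper : Omega n * √n = 2 * Om := _root_.Run7.h209.P15.s_per L Op Om hOp hOm g2 g3 hL n h4
  have hn0 : n ≠ 0 := hn.1.ne_zero
  have hs0 : 0 < √(n : ℝ) := by
    have : (0 : ℝ) < n := by exact_mod_cast Nat.pos_of_ne_zero hn0
    exact Real.sqrt_pos.2 this
  have hOm0 : 0 < Omega n := by
    have h1 : 0 < Omega n * √n := by rw [hper]; linarith
    exact (mul_pos_iff_of_pos_right hs0).1 h1
  refine ⟨F, hF, hprod, hOm0, y, ?_, ?_⟩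
  · have h3 : Qc n ↔ Criterion n := Iff.rfl
    rw [← h3, ← hodd, Int.odd_mul]
    exact ⟨fun h => ⟨by decide, h⟩, fun h => h.2⟩
  have h1 : (4 : ℂ) * F 1 * ((√n : ℝ) : ℂ) =
      ((2 ^ n.primeFactors.card * (y : ℂ)) ^ 2 * (Omega n : ℂ)) * ((√n : ℝ) : ℂ) := by
    have h2 : (2 : ℂ) * (Om : ℂ) = (Omega n : ℂ) * ((√n : ℝ) : ℂ) := by
      rw [← Complex.ofReal_mul, hper]
      push_cast
      ring
    push_cast at hval
    linear_combination (2 / 9 : ℂ) * hval + ((2 ^ n.primeFactors.card * (y : ℂ)) ^ 2) * h2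
  have hs0' : ((√n : ℝ) : ℂ) ≠ 0 := by exact_mod_cast hs0.ne'
  have h4' := mul_right_cancel₀ hs0' h1
  push_cast
  linear_combination (1 / 4 : ℂ) * h4'

/-! ### multipliers -/

theorem sqf_class {a n : ℕ} (ha : Mult a) (hn : Class n) : Class (sqf a n) := by
  have h := Pool.Agent.Run7.h424.J.tw_spec ha.1 hn.1
  have e : sqf a n = Pool.Agent.Run7.h238.J.tw a n := rfl
  refine ⟨e ▸ h.1, ?_⟩
  have h1 : Pool.Agent.Run7.h238.J.Mix.Cls 15 (a * n) := by
    unfold Pool.Agent.Run7.h238.J.Mix.Cls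
    rw [if_pos rfl, Nat.mul_mod]
    rcases ha.2 with h1 | h1 <;> rcases hn.2 with h2 | h2 <;> rw [h1, h2] <;> norm_num
  have h2 := Pool.Agent.Run7.h238.J.Mix.cls_tw ha.1 hn.1 h1
  unfold Pool.Agent.Run7.h238.J.Mix.Cls at h2
  rw [if_pos rfl] at h2
  exact h2

theorem ell {n : ℕ} (hn : Class n) : (E n).IsElliptic := by
  have hn0 : n ≠ 0 := hn.1.ne_zero
  have hD : (W (-(n : ℤ))).Δ = 50625 * (-(n : ℤ)) ^ 6 := _root_.Run7.h238.G15.disc_WT (by
    rcases hn.2 with h | h <;> omega)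
  refine ⟨?_⟩
  have h5 : (E n).Δ = (((W (-(n : ℤ))).Δ : ℤ) : ℚ) := by
    unfold E
    rw [WeierstrassCurve.map_Δ]
    rfl
  rw [h5, hD, isUnit_iff_ne_zero]
  have : (n : ℚ) ≠ 0 := by exact_mod_cast hn0
  push_cast
  exact mul_ne_zero (by norm_num) (pow_ne_zero 6 (neg_ne_zero.2 this))

theorem weak {n : ℕ} (hn : Class n) (hc : Criterion n) : WeakBSD n := by
  obtain ⟨F, hF, hprod, hOm, y, hy, hval⟩ := one hn
  have hyo : Odd y := hy.2 hc
  have hy0 : y ≠ 0 := by
    rintro rfl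
    exact absurd hyo (by decide)
  refine ⟨ell hn, ⟨F, hF, hprod⟩, fun f hf => ?_⟩
  have hf1 : f 1 ≠ 0 := by
    rw [uniq hf ⟨hF, hprod⟩, hval]
    refine mul_ne_zero ?_ ?_
    · have h9 : ((y : ℤ) : ℚ) ≠ 0 := by exact_mod_cast hy0
      have h7 : ((2 ^ n.primeFactors.card * y / 2 : ℚ) ^ 2 : ℚ) ≠ 0 := by positivity
      exact_mod_cast h7
    · exact_mod_cast hOm.ne'
  have hfin : Finite (E n).toAffine.Point := ((two_iff hn).2 hc).1
  exact ⟨fun h => absurd h hf1, fun h => absurd hfin h.not_finite⟩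

end proof

section count

open Finset
open Pool.Agent.N969.P15 (Qc)

/-- the residue class -/
def Cl (n : ℕ) : Prop := n % 60 = 23 ∨ n % 60 = 47

theorem num_eq (Q : ℕ → Prop) (T : ℕ) :
    num Q T = ((Icc 1 T).filter fun n => Squarefree n ∧ Cl n ∧ Q n).card := by
  unfold num
  refine Nat.subtype_card _ fun n => ?_
  rw [mem_filter, mem_Icc]
  constructor
  · rintro ⟨⟨_, h1⟩, h2, h3, h4⟩
    exact ⟨h1, ⟨h2, h3⟩, h4⟩
  · rintro ⟨h1, ⟨h2, h3⟩, h4⟩
    exact ⟨⟨Nat.one_le_iff_ne_zero.2 h2.ne_zero, h1⟩, h2, h3, h4⟩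

/-- **the joint law** -/
theorem law {S T : Finset ℕ} (hS : ∀ a ∈ S, Mult a) (hT : T ⊆ S) :
    Tendsto (fun X : ℕ => (num (fun n => ∀ a ∈ S, (TrivialTwo (sqf a n) ↔ a ∈ T)) X : ℝ) /
      (num (fun _ => True) X : ℝ)) atTop (𝓝 (eta ^ T.card * (1 - eta) ^ (S.card - T.card))) := by
  have hu : T ∪ S \ T = S := Finset.union_sdiff_of_subset hT
  have h := Pool.Agent.Run7.h238.J.dens_pat
    (fun N => Pool.Agent.Run7.h289.J.t_JDQ (fun _ : Fin N => 0)) T (S \ T) Finset.disjoint_sdiff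
    (fun a ha => (hS a (by rwa [hu] at ha)).1)
    (fun a ha => by
      have := (hS a (by rwa [hu] at ha)).2
      omega) 120 (by norm_num) (by norm_num) Cl
    (fun n => by
      show (n % 60 = 23 ∨ n % 60 = 47) ↔ (n % 120 % 60 = 23 ∨ n % 120 % 60 = 47)
      omega)
    (fun n hn => by
      have h' : n % 60 = 23 ∨ n % 60 = 47 := hn
      omega) 23 (Or.inl rfl) (by norm_num)
  rw [Finset.card_sdiff_of_subset hT] at h
  have eη : Pool.Agent.N916.GB.eta = eta := rfl
  rw [eη] at h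
  refine h.congr fun X => ?_
  rw [num_eq, num_eq]
  congr 2
  · congr 1
    ext n
    simp only [mem_filter]
    refine and_congr_right fun _ => and_congr_right fun hn => and_congr_right fun hPn => ?_
    have key : ∀ a ∈ S, (TrivialTwo (sqf a n) ↔ Qc (Pool.Agent.Run7.h238.J.tw a n)) := fun a ha =>
      two_iff (sqf_class (hS a ha) ⟨hn, hPn⟩)
    constructor
    · rintro ⟨h1, h2⟩ a ha
      rw [key a ha]
      constructor
      · intro hq
        by_contra hT'
        exact h2 a (Finset.mem_sdiff.2 ⟨ha, hT'⟩) hq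
      · intro haT
        exact h1 a haT
    · intro h1
      refine ⟨fun a ha => (key a (hT ha)).1 ((h1 a (hT ha)).2 ha), fun a ha hq => ?_⟩
      rw [Finset.mem_sdiff] at ha
      exact ha.2 ((h1 a ha.1).1 ((key a ha.1).2 hq))
  · congr 1
    ext n
    simp only [mem_filter, and_true]

theorem num_mono {P Q : ℕ → Prop} (h : ∀ n, Class n → P n → Q n) (X : ℕ) : num P X ≤ num Q X := by
  rw [num_eq, num_eq]
  refine Finset.card_le_card fun n hn => ?_
  rw [mem_filter] at hn ⊢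
  exact ⟨hn.1, hn.2.1, hn.2.2.1, h n ⟨hn.2.1, hn.2.2.1⟩ hn.2.2.2⟩

theorem low : ∀ᶠ T : ℕ in atTop, 1 / (4 * (120 : ℕ)) * (T : ℝ) ≤ (num (fun _ => True) T : ℝ) := by
  filter_upwards [eventually_ge_atTop (100 * 120 ^ 2)] with T hT
  rw [num_eq]
  have h := Pool.Agent.Run7.h843.G.low_P 120 (by norm_num) (by norm_num) Cl
    (fun n => by
      show (n % 60 = 23 ∨ n % 60 = 47) ↔ (n % 120 % 60 = 23 ∨ n % 120 % 60 = 47)
      omega) 23 (Or.inl rfl) (by norm_num) T hT
  refine h.trans_eq ?_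
  norm_cast
  congr 1
  ext n
  simp only [Finset.mem_filter, and_true]

end count

/-- **The weak Birch and Swinnerton-Dyer conjecture for the twists of `X_0(15)`.** -/
theorem result :
    (∀ n : ℕ, Class n →
      (E n).IsElliptic ∧ 0 < Omega n ∧ (∃ f : ℂ → ℂ, IsL n f) ∧
      ∀ f : ℂ → ℂ, IsL n f → (∃ y : ℤ, (Odd y ↔ TrivialTwo n) ∧
        4 * f 1 = (((2 ^ n.primeFactors.card * y) ^ 2 : ℤ) : ℂ) * (Omega n : ℂ)) ∧
        (f 1 = 0 → ¬ TrivialTwo n)) ∧
    (∀ n : ℕ, Class n → (TrivialTwo n ↔ Criterion n) ∧ (Criterion n → WeakBSD n)) ∧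
    0.2887 < eta ∧ eta < 0.2889 ∧
    (∃ c : ℝ, 0 < c ∧ ∀ᶠ T : ℕ in atTop, c * T ≤ (num (fun _ => True) T : ℝ)) ∧
    ∀ S : Finset ℕ, (∀ a ∈ S, Mult a) →
      (∀ n : ℕ, Class n → ∀ a ∈ S, Class (sqf a n) ∧ sqf a n * Nat.gcd a n ^ 2 = a * n) ∧
      (∀ T ⊆ S, Tendsto (fun X : ℕ =>
        (num (fun n => ∀ a ∈ S, (TrivialTwo (sqf a n) ↔ a ∈ T)) X : ℝ) /
          (num (fun _ => True) X : ℝ)) atTop (𝓝 (eta ^ T.card * (1 - eta) ^ (S.card - T.card)))) ∧
      ∀ᶠ X : ℕ in atTop, 0.2887 ^ S.card * (num (fun _ => True) X : ℝ) ≤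
        (num (fun n => ∀ a ∈ S, WeakBSD (sqf a n)) X : ℝ) := by
  have he1 : 0.2887 < eta := Pool.Agent.N916.GB.eta_bounds.1
  refine ⟨fun n hn => ?_, fun n hn => ⟨two_iff hn, weak hn⟩, he1,
    Pool.Agent.N916.GB.eta_bounds.2, ⟨1 / (4 * (120 : ℕ)), by norm_num, low⟩, fun S hS =>
    ⟨fun n hn a ha => ⟨sqf_class (hS a ha) hn,
    (Pool.Agent.Run7.h424.J.tw_spec (hS a ha).1 hn.1).2.2⟩, fun T hT => law hS hT, ?_⟩⟩
  · obtain ⟨F, hF, hprod, hOm, y, hy, hval⟩ := one hn
    have hv : 4 * F 1 = (((2 ^ n.primeFactors.card * y) ^ 2 : ℤ) : ℂ) * (Omega n : ℂ) := by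
      rw [hval]
      push_cast
      ring
    refine ⟨ell hn, hOm, ⟨F, hF, hprod⟩, fun f hf => ?_⟩
    rw [uniq hf ⟨hF, hprod⟩]
    refine ⟨⟨y, hy.trans (two_iff hn).symm, hv⟩, fun h0 ht => ?_⟩
    have hyo : Odd y := hy.2 ((two_iff hn).1 ht)
    rw [h0, mul_zero] at hv
    rcases mul_eq_zero.1 hv.symm with h | h
    · have h2 : ((2 ^ n.primeFactors.card * y) ^ 2 : ℤ) = 0 := by exact_mod_cast h
      have h3 : y = 0 := by
        rcases mul_eq_zero.1 (pow_eq_zero_iff two_ne_zero |>.1 h2) with h4 | h4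
        · exact absurd h4 (by positivity)
        · exact h4
      rw [h3] at hyo
      exact absurd hyo (by decide)
    · exact hOm.ne' (by exact_mod_cast h)
  · rcases S.eq_empty_or_nonempty with rfl | hne
    · refine Filter.Eventually.of_forall fun X => ?_
      rw [Finset.card_empty, pow_zero, one_mul]
      refine Nat.cast_le.2 (num_mono (fun n _ _ a ha => ?_) X)
      exact absurd ha (by simp)
    · have h1 := law hS (Finset.Subset.refl S)
      rw [Nat.sub_self, pow_zero, mul_one] at h1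
      have hlt : (0.2887 : ℝ) ^ S.card < eta ^ S.card :=
        pow_lt_pow_left₀ he1 (by norm_num) hne.card_pos.ne'
      filter_upwards [h1.eventually (lt_mem_nhds hlt), low, eventually_gt_atTop 0] with X hX h2 hX0
      have h3 : (0 : ℝ) < (num (fun _ => True) X : ℝ) := by
        have : (0 : ℝ) < 1 / (4 * (120 : ℕ)) * (X : ℝ) := by
          have : (0 : ℝ) < X := by exact_mod_cast hX0
          positivity
        linarith
      have h4 := (lt_div_iff₀ h3).1 hX
      have h5 : (num (fun n => ∀ a ∈ S, (TrivialTwo (sqf a n) ↔ a ∈ S)) X : ℝ) ≤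
          (num (fun n => ∀ a ∈ S, WeakBSD (sqf a n)) X : ℝ) := by
        refine Nat.cast_le.2 (num_mono (fun n hn h6 a ha => ?_) X)
        exact weak (sqf_class (hS a ha) hn) ((two_iff (sqf_class (hS a ha) hn)).1 ((h6 a ha).2 ha))
      linarith

end Pool.Agent.Results.MP_8b7eba_nt.TwistsX15WeakForm
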