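import Pool.Agent.Run7.h89.P21.Cen
import Pool.Agent.Run7.h89.P21.Tam
import Pool.Agent.Run7.h209.P21.Per6
import Pool.Agent.Run7.h89.P21.Iff
import Pool.Agent.Run7.h843.G3
import Pool.Agent.Run7.h555.P21.Th

/-!
# The weak conjecture of Birch and Swinnerton-Dyer for the quadratic twists of `X_0(21)`

Let `n` be squarefree and congruent to `19`, `31` or `55` modulo `84`, and let `E` be the quadratic
twist by `-n` of the modular curve `X_0(21)`, an elliptic curve over `ℚ` without complex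
multiplication (`y² = x (x + 9 n) (x - 7 n)`).

1. `E` is an elliptic curve, its complete Euler product extends to an entire function `L(E, s)`, and
   `4 L(E, 1) = (2^ω y)² Ω` with an integer `y`, `ω` the number of the prime divisors of `n`, `Ω > 0`
   the real period.
2. The following are equivalent, with no hypothesis on the rank or on the Tate-Shafarevich group `Ш`:
   * `y` is odd;
   * `E(ℚ)` is finite and the `2`-primary part of `Ш(E/ℚ)` is zero (`TrivialTwo n`);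
   * the class group of `ℚ(√-n)` has no element of order four, in the elementary form
     `Criterion n`: if `n = b c`, `b` is a square modulo the prime divisors of `c` and `c` is a square
     modulo the prime divisors of `b`, then `b = 1` or `c = 1`.

   So for all `n` of the class: if `L(E, 1) = 0`, then `E(ℚ)` is infinite or the `2`-primary part of
   `Ш(E/ℚ)` is not zero (the open implication of the weak conjecture, with the `2`-part of `Ш`).
3. If these conditions hold, then `E(ℚ)` is finite and `L(E, 1) ≠ 0`: the weak conjecture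
   (`WeakBSD n`) holds, both sides are false.
4. The natural density of these `n` among all squarefree `n ≡ 19, 31, 55 mod 84` exists and is
   `η = ∏_{i ≥ 1} (1 - 2^{-i}) = 0.2887...`; so the conjecture is proved for a positive natural
   proportion of all quadratic twists of the curve.

The theorem is joint work of helper89, helper135, helper209, helper238, helper289, helper424,
helper483, helper555, helper741 and helper843: the Gross sum over the vectors of a ternary lattice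
(`Run7/h135/P21`, `Run7/h238/P21`, `Run7/h483/P21`, `Run7/h843/P21`, `Run7/h89/P21`), the modular
parametrization and the `L`-function (`Run7/h741/MG`, `Run7/h209/P21`, `Run7/h555/TL`,
`Run7/h843/P21`), the descent (`Run7/h289/D18`, `Run7/h424/M21`) and the density (`Run7/h843/G3`).
-/

set_option autoImplicit false

open Filter Topology
open scoped Classical

namespace Pool.Agent.Results.MP_8b7eba_nt.TwistsX21WeakForm

/-- the minimal Weierstrass equation of the quadratic twist by `D ≡ 1 mod 4` of `X_0(21)` -/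
def W (D : ℤ) : WeierstrassCurve ℤ :=
  ⟨1, (D - 1) / 4, 0, -(4 * D ^ 2), -(D ^ 3)⟩

/-- the elliptic curve `E` over `ℚ`, the twist by `-n` -/
def E (n : ℕ) : WeierstrassCurve ℚ := (W (-(n : ℤ))).map (Int.castRingHom ℚ)

/-- the class of the numbers `n` -/
def Class (n : ℕ) : Prop := Squarefree n ∧ (n % 84 = 19 ∨ n % 84 = 31 ∨ n % 84 = 55)

/-- `a_p = p + 1 - #E(𝔽_p)`, for the reduction modulo `p` of the minimal equation -/
noncomputable def a (n p : ℕ) : ℤ :=
  p - Nat.card {P : ZMod p × ZMod p //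
    ((W (-(n : ℤ))).map (Int.castRingHom (ZMod p))).toAffine.Equation P.1 P.2}

/-- `f` is entire and equal to the Euler product of `E` over all primes for `Re s > 3 / 2` (the bad
primes are the divisors of `21 n`) -/
def IsL (n : ℕ) (f : ℂ → ℂ) : Prop :=
  Differentiable ℂ f ∧ ∀ s : ℂ, (3 : ℝ) / 2 < s.re →
    HasProd (fun p : ℕ => if p.Prime then
      (1 - (a n p : ℂ) * (p : ℂ) ^ (-s) + if p ∣ 21 * n then 0 else (p : ℂ) ^ (1 - 2 * s))⁻¹
      else 1) (f s)

/-- `4 x³ + b₂ x² + 2 b₄ x + b₆ = (2 y + a₁ x + a₃)²` -/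
def cubic (V : WeierstrassCurve ℤ) (x : ℝ) : ℝ := 4 * x ^ 3 + V.b₂ * x ^ 2 + 2 * V.b₄ * x + V.b₆

/-- the real period of `E` -/
noncomputable def Omega (n : ℕ) : ℝ :=
  2 * ∫ x in {x : ℝ | 0 < cubic (W (-(n : ℤ))) x}, 1 / √(cubic (W (-(n : ℤ))) x)

/-- the weak conjecture for `E`: the `L`-function exists, and it vanishes at `1` if and only if `E(ℚ)`
is infinite -/
def WeakBSD (n : ℕ) : Prop :=
  (E n).IsElliptic ∧ (∃ f : ℂ → ℂ, IsL n f) ∧
    ∀ f : ℂ → ℂ, IsL n f → (f 1 = 0 ↔ Infinite (E n).toAffine.Point)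

/-- `E(ℚ)` is finite and `Ш(E/ℚ)[2^∞] = 0` -/
def TrivialTwo (n : ℕ) : Prop :=
  Finite (E n).toAffine.Point ∧
    ∀ (k : ℕ) (x : Pool.Agent.TH841.NF.D.Sha (E n)), 2 ^ k • x = 0 → x = 0

/-- the class group of `ℚ(√-n)` has no element of order four -/
def Criterion (n : ℕ) : Prop := ∀ b c : ℕ, b * c = n →
  (∀ p ∈ c.primeFactors, jacobiSym b p = 1) → (∀ p ∈ b.primeFactors, jacobiSym c p = 1) →
  b = 1 ∨ c = 1

/-- the number of the `n ≤ T` in the class with the property `Q` -/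
noncomputable def num (Q : ℕ → Prop) (T : ℕ) : ℕ := Nat.card {n : ℕ // n ≤ T ∧ Class n ∧ Q n}

/-- the constant `η = 0.2887...` -/
noncomputable def eta : ℝ := ∏' i : ℕ, (1 - (1 / 2 : ℝ) ^ (i + 1))

section proof

open _root_.Run7.h89.P21 (WT CI EI EJ)
open Pool.Agent.N969.P15 (Qc)
open Pool.Agent.Run7.h843.P21 (Cls0)

theorem E_eq (n : ℕ) : E n = EI n := rfl

theorem two_iff {n : ℕ} (hn : Class n) : TrivialTwo n ↔ Criterion n := by
  have h3 : Qc n ↔ Criterion n := Iff.rfl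
  rw [← h3]
  exact _root_.Run7.h89.P21.iffI hn.1 hn.2

theorem uniq {n : ℕ} {f g : ℂ → ℂ} (hf : IsL n f) (hg : IsL n g) : f = g := by
  have h : ∀ s : ℂ, (3 : ℝ) / 2 < s.re → f s = g s := fun s hs =>
    (hf.2 s hs).unique (hg.2 s hs)
  have hfa : AnalyticOnNhd ℂ f Set.univ := fun z _ => hf.1.analyticAt z
  have hga : AnalyticOnNhd ℂ g Set.univ := fun z _ => hg.1.analyticAt z
  refine hfa.eq_of_eventuallyEq hga (z₀ := 2) ?_
  have ho : IsOpen {s : ℂ | (3 : ℝ) / 2 < s.re} := isOpen_lt continuous_const Complex.continuous_re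
  filter_upwards [ho.mem_nhds (show (3 : ℝ) / 2 < (2 : ℂ).re by norm_num)] with s hs
  exact h s hs

/-- the central value, with the divisibility by three of the Gross sum -/
theorem center4 {L : PeriodPair} {Op Om : ℝ} (hOm : 0 < Om) (g2 : L.g₂ = 193 / 12)
    (g3 : L.g₃ = 575 / 216)
    (hL : ∀ w : ℂ, w ∈ L.lattice ↔ ∃ a b : ℤ, w = a * Op + b * Om * Complex.I)
    {n : ℕ} (hn : Class n) :
    ∃ F : ℂ → ℂ, Differentiable ℂ F ∧
      (∀ s : ℂ, 3 / 2 < s.re →
        HasProd (fun p : ℕ => if p.Prime then _root_.Run7.h89.P21.eul n s p else 1) (F s)) ∧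
      ∃ y : ℤ, (Odd y ↔ Criterion n) ∧
        2 * F 1 * ((√n : ℝ) : ℂ) = ((Om * (2 ^ n.primeFactors.card * y) ^ 2 : ℝ) : ℂ) := by
  obtain ⟨F, hF, hprod, y, hc, hodd, hval⟩ := _root_.Run7.h89.P21.center hOm g2 g3 hL (n := n) hn
  have h3 : ¬ 3 ∣ n := by
    rcases hn.2 with h | h | h <;> omega
  have hd := _root_.Run7.h555.P21.three_dvd_cc h3
  rw [hc] at hd
  obtain ⟨y', rfl⟩ : (3 : ℤ) ∣ y :=
    (Int.prime_three.dvd_or_dvd hd).resolve_left fun h => by
      have := Int.prime_three.dvd_of_dvd_pow h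
      norm_num at this
  refine ⟨F, hF, hprod, y', ?_, ?_⟩
  · have h4 : Odd (3 * y') ↔ Odd y' := by
      rw [Int.odd_mul]
      exact ⟨fun h => h.2, fun h => ⟨by decide, h⟩⟩
    rw [← h4]
    exact hodd
  · push_cast at hval ⊢
    linear_combination (1 / 9 : ℂ) * hval

theorem value {n : ℕ} (hn : Class n) : (∃ f : ℂ → ℂ, IsL n f) ∧ 0 < Omega n ∧
    ∀ f : ℂ → ℂ, IsL n f → ∃ y : ℤ, (Odd y ↔ Criterion n) ∧
      4 * f 1 = (((2 ^ n.primeFactors.card * y) ^ 2 : ℤ) : ℂ) * (Omega n : ℂ) := by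
  have h4 : n % 4 = 3 := by
    rcases hn.2 with h | h | h <;> omega
  obtain ⟨L, Op, Om, hOp, hOm, g2, g3, hL⟩ := _root_.Run7.h209.P21.m_lat
  obtain ⟨F, hF, hprod, y, hodd, hval⟩ := center4 hOm g2 g3 hL hn
  have hper : Omega n * √n = 2 * Om := _root_.Run7.h209.P21.s_per L Op Om hOp hOm g2 g3 hL n h4
  have hFL : IsL n F := ⟨hF, hprod⟩
  have hn0 : n ≠ 0 := hn.1.ne_zero
  have hsp : 0 < √(n : ℝ) := by
    have : (0 : ℝ) < n := by exact_mod_cast Nat.pos_of_ne_zero hn0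
    exact Real.sqrt_pos.2 this
  have hOmp : 0 < Omega n := by
    have h1 : 0 < Omega n * √n := by
      rw [hper]
      positivity
    exact (pos_iff_pos_of_mul_pos h1).2 hsp
  refine ⟨⟨F, hFL⟩, hOmp, fun f hf => ⟨y, hodd, ?_⟩⟩
  rw [uniq hf hFL]
  have h1 : (4 : ℂ) * F 1 * ((√n : ℝ) : ℂ) =
      ((2 ^ n.primeFactors.card * (y : ℂ)) ^ 2 * (Omega n : ℂ)) * ((√n : ℝ) : ℂ) := by
    have h2 : (2 : ℂ) * (Om : ℂ) = (Omega n : ℂ) * ((√n : ℝ) : ℂ) := by
      rw [← Complex.ofReal_mul, hper]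
      push_cast
      ring
    have h3 : (4 : ℂ) * F 1 * ((√n : ℝ) : ℂ) = 2 * (2 * F 1 * ((√n : ℝ) : ℂ)) := by ring
    rw [h3, hval]
    push_cast
    linear_combination ((2 ^ n.primeFactors.card * (y : ℂ)) ^ 2) * h2
  have hs0' : ((√n : ℝ) : ℂ) ≠ 0 := by exact_mod_cast hsp.ne'
  have h4' := mul_right_cancel₀ hs0' h1
  rw [h4']
  push_cast
  ring

theorem nonvan {n : ℕ} (hn : Class n) (hc : Criterion n) {f : ℂ → ℂ} (hf : IsL n f) : f 1 ≠ 0 := by
  obtain ⟨-, hO, h⟩ := value hn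
  obtain ⟨y, hy, hv⟩ := h f hf
  have hyo : Odd y := hy.2 hc
  have hy0 : y ≠ 0 := by
    rintro rfl
    exact absurd hyo (by decide)
  intro h0
  rw [h0, mul_zero] at hv
  rcases mul_eq_zero.1 hv.symm with h1 | h1
  · have h2 : ((2 : ℤ) ^ n.primeFactors.card * y) ^ 2 = 0 := by exact_mod_cast h1
    have h3 := mul_ne_zero (pow_ne_zero n.primeFactors.card (two_ne_zero (α := ℤ))) hy0
    exact pow_ne_zero 2 h3 h2
  · have h2 : Omega n = 0 := by exact_mod_cast h1
    exact hO.ne' h2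

theorem elliptic {n : ℕ} (hn : Class n) : (E n).IsElliptic := by
  have hn0 : n ≠ 0 := hn.1.ne_zero
  refine ⟨?_⟩
  have h5 := _root_.Run7.h89.P21.disc (k := ℚ) (n := n) (by rcases hn.2 with h | h | h <;> omega)
  rw [E_eq, isUnit_iff_ne_zero, h5]
  have : (n : ℚ) ≠ 0 := by exact_mod_cast hn0
  exact mul_ne_zero (by norm_num) (pow_ne_zero 6 this)

theorem weak {n : ℕ} (hn : Class n) (hc : Criterion n) : WeakBSD n := by
  have hfin := ((two_iff hn).2 hc).1
  refine ⟨elliptic hn, (value hn).1, fun f hf => ⟨fun h => absurd h (nonvan hn hc hf), fun h => ?_⟩⟩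
  exact absurd hfin (not_finite_iff_infinite.2 h)

end proof

/-- **The weak conjecture of Birch and Swinnerton-Dyer for the quadratic twists of `X_0(21)`.** -/
theorem result :
    (∀ n : ℕ, Class n →
      ((E n).IsElliptic ∧ (∃ f : ℂ → ℂ, IsL n f) ∧ 0 < Omega n ∧
        ∀ f : ℂ → ℂ, IsL n f → ∃ y : ℤ, (Odd y ↔ TrivialTwo n) ∧
          4 * f 1 = (((2 ^ n.primeFactors.card * y) ^ 2 : ℤ) : ℂ) * (Omega n : ℂ)) ∧
      (TrivialTwo n ↔ Criterion n) ∧
      (∀ f : ℂ → ℂ, IsL n f → f 1 = 0 → ¬ TrivialTwo n) ∧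
      (Criterion n → WeakBSD n ∧ Finite (E n).toAffine.Point ∧ ∀ f : ℂ → ℂ, IsL n f → f 1 ≠ 0)) ∧
    Tendsto (fun T : ℕ => (num TrivialTwo T : ℝ) / (num (fun _ => True) T : ℝ)) atTop (𝓝 eta) ∧
    0.2887 < eta ∧ eta < 0.2889 ∧
    ∃ c : ℝ, 0 < c ∧ ∀ᶠ T : ℕ in atTop, c * T ≤ (num (fun _ => True) T : ℝ) := by
  have e2 : ∀ T : ℕ, num (fun _ => True) T = ((Finset.Icc 1 T).filter fun n => Squarefree n ∧
      (n % 84 = 19 ∨ n % 84 = 31 ∨ n % 84 = 55)).card := by
    intro T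
    unfold num
    refine Nat.subtype_card _ fun n => ?_
    rw [Finset.mem_filter, Finset.mem_Icc]
    constructor
    · rintro ⟨⟨h1, h2⟩, h3⟩
      exact ⟨h2, h3, trivial⟩
    · rintro ⟨h1, h2, -⟩
      exact ⟨⟨Nat.one_le_iff_ne_zero.2 h2.1.ne_zero, h1⟩, h2⟩
  have e1 : ∀ T : ℕ, num TrivialTwo T = ((Finset.Icc 1 T).filter fun n => Squarefree n ∧
      (n % 84 = 19 ∨ n % 84 = 31 ∨ n % 84 = 55) ∧ Pool.Agent.N969.P15.Qc n).card := by
    intro T
    unfold num
    refine Nat.subtype_card _ fun n => ?_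
    rw [Finset.mem_filter, Finset.mem_Icc]
    constructor
    · rintro ⟨⟨h1, h2⟩, h3, h4, h5⟩
      exact ⟨h2, ⟨h3, h4⟩, (two_iff ⟨h3, h4⟩).2 h5⟩
    · rintro ⟨h1, h2, h3⟩
      exact ⟨⟨Nat.one_le_iff_ne_zero.2 h2.1.ne_zero, h1⟩, h2.1, h2.2, (two_iff h2).1 h3⟩
  refine ⟨fun n hn => ⟨⟨elliptic hn, (value hn).1, (value hn).2.1, fun f hf => ?_⟩, two_iff hn,
    fun f hf h0 ht => nonvan hn ((two_iff hn).1 ht) hf h0,
    fun hc => ⟨weak hn hc, ((two_iff hn).2 hc).1, fun f hf => nonvan hn hc hf⟩⟩, ?_, Pool.Agent.N916.GB.eta_bounds.1,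
    Pool.Agent.N916.GB.eta_bounds.2, 1 / (4 * (168 : ℕ)), by norm_num, ?_⟩
  · rw [two_iff hn]
    exact (value hn).2.2 f hf
  · have h := Pool.Agent.Run7.h843.G.dens21
    refine h.congr fun T => ?_
    rw [e1, e2]
  · filter_upwards [eventually_ge_atTop (100 * 168 ^ 2)] with T hT
    rw [e2]
    have h := Pool.Agent.Run7.h843.G.low_P 168 (by norm_num) (by norm_num)
      (fun n => n % 84 = 19 ∨ n % 84 = 31 ∨ n % 84 = 55)
      (fun n => by
        show (n % 84 = 19 ∨ n % 84 = 31 ∨ n % 84 = 55) ↔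
          (n % 168 % 84 = 19 ∨ n % 168 % 84 = 31 ∨ n % 168 % 84 = 55)
        omega) 19 (Or.inl rfl) (by norm_num) T hT
    refine h.trans_eq ?_
    norm_cast
    congr 1
    ext n
    simp only [Finset.mem_filter]

end Pool.Agent.Results.MP_8b7eba_nt.TwistsX21WeakForm
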